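import Mathlib

section

/-! Algebraic inequalities for univalent cubic polynomials. -/

namespace Pool.Agent.MP_d3fa2a_an

open Complex Metric Real Set

/-- second coefficient of the extremal cubic -/
noncomputable def A : ℝ := 2 * √2 / 3

lemma A_sq : A ^ 2 = 8 / 9 := by
  unfold A
  rw [div_pow, mul_pow, Real.sq_sqrt (by norm_num)]
  norm_num

lemma A_pos : 0 < A := by unfold A; positivity

lemma A_lo : 0.9428 < A := by nlinarith [A_sq, A_pos]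

lemma A_hi : A < 0.9429 := by nlinarith [A_sq, A_pos]

lemma schur {α β : ℂ} (h : ∀ z : ℂ, ‖z‖ < 1 → 1 + α * z + β * z ^ 2 ≠ 0) :
    ‖β‖ ≤ 1 ∧ ‖α - (starRingEnd ℂ) α * β‖ ≤ 1 - ‖β‖ ^ 2 := by
  obtain ⟨s, hs⟩ := IsAlgClosed.exists_pow_nat_eq (α ^ 2 - 4 * β) (n := 2) (by norm_num)
  set r₁ := (-α + s) / 2 with h1
  set r₂ := (-α - s) / 2 with h2
  have hα : α = -(r₁ + r₂) := by rw [h1, h2]; ring
  have hβ : β = r₁ * r₂ := by rw [h1, h2]; linear_combination (1 / 4 : ℂ) * hs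
  have key : ∀ r r' : ℂ, α = -(r + r') → β = r * r' → ‖r‖ ≤ 1 := by
    intro r r' ha hb
    by_contra hr
    push Not at hr
    have hr0 : r ≠ 0 := by
      intro h0
      rw [h0, norm_zero] at hr
      linarith
    apply h r⁻¹
    · rw [norm_inv]
      exact inv_lt_one_of_one_lt₀ hr
    · rw [ha, hb]
      field_simp
      ring
  have k1 := key r₁ r₂ hα hβ
  have k2 := key r₂ r₁ (by rw [hα]; ring) (by rw [hβ]; ring)
  have n1 := norm_nonneg r₁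
  have n2 := norm_nonneg r₂
  constructor
  · rw [hβ, norm_mul]
    nlinarith
  · have e : α - (starRingEnd ℂ) α * β =
        -(r₁ * ((1 - ‖r₂‖ ^ 2 : ℝ) : ℂ)) - r₂ * ((1 - ‖r₁‖ ^ 2 : ℝ) : ℂ) := by
      have c1 := Complex.mul_conj' r₁
      have c2 := Complex.mul_conj' r₂
      rw [hβ, hα]
      push_cast
      simp only [map_neg, map_add]
      linear_combination r₂ * c1 + r₁ * c2
    rw [e]
    refine (norm_sub_le _ _).trans ?_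
    rw [norm_neg, norm_mul, norm_mul, Complex.norm_real, Complex.norm_real,
      Real.norm_of_nonneg (by nlinarith), Real.norm_of_nonneg (by nlinarith), hβ, norm_mul]
    have : 0 ≤ (1 - ‖r₁‖) * (1 - ‖r₂‖) * (1 - ‖r₁‖ * ‖r₂‖) := by
      apply mul_nonneg (mul_nonneg (by linarith) (by linarith))
      nlinarith
    nlinarith

lemma zero_free {a b : ℂ} (h : InjOn (fun z : ℂ => z + a * z ^ 2 + b * z ^ 3) (ball 0 1))
    {u : ℝ} (h0 : 0 < u) (h2 : u < 2) (z : ℂ) (hz : ‖z‖ < 1) :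
    1 + (u * a) * z + ((u ^ 2 - 1) * b) * z ^ 2 ≠ 0 := by
  intro hzero
  have hz0 : z ≠ 0 := by
    rintro rfl
    simp at hzero
  have hpos : 0 < 1 - u ^ 2 / 4 := by nlinarith
  set v : ℝ := √(1 - u ^ 2 / 4) with hv
  have hv2 : v ^ 2 = 1 - u ^ 2 / 4 := Real.sq_sqrt hpos.le
  have hvpos : 0 < v := Real.sqrt_pos.2 hpos
  have hv2c : (v : ℂ) ^ 2 = 1 - (u : ℂ) ^ 2 / 4 := by exact_mod_cast hv2
  set κ : ℂ := u / 2 + v * I with hκ
  set κ' : ℂ := u / 2 - v * I with hκ'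
  have nκ : ‖κ‖ = 1 := by
    have : ‖κ‖ ^ 2 = 1 := by
      rw [Complex.sq_norm, normSq_apply, hκ]
      simp
      nlinarith
    nlinarith [norm_nonneg κ]
  have nκ' : ‖κ'‖ = 1 := by
    have : ‖κ'‖ ^ 2 = 1 := by
      rw [Complex.sq_norm, normSq_apply, hκ']
      simp
      nlinarith
    nlinarith [norm_nonneg κ']
  have hprod : κ * κ' = 1 := by
    rw [hκ, hκ']
    linear_combination hv2c - (v : ℂ) ^ 2 * I_sq
  have hsum : κ + κ' = u := by rw [hκ, hκ']; ring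
  have e := h (x₁ := κ * z) (x₂ := κ' * z) (by simp [nκ, hz]) (by simp [nκ', hz]) (by
    show κ * z + a * (κ * z) ^ 2 + b * (κ * z) ^ 3 = κ' * z + a * (κ' * z) ^ 2 + b * (κ' * z) ^ 3
    rw [← hsum] at hzero
    linear_combination (κ - κ') * z * hzero - (κ - κ') * z ^ 3 * b * hprod)
  have e2 : κ = κ' := mul_right_cancel₀ hz0 e
  have := congrArg Complex.im e2
  rw [hκ, hκ'] at this
  simp at this
  linarith

lemma cond_u {a b : ℂ} (h : InjOn (fun z : ℂ => z + a * z ^ 2 + b * z ^ 3) (ball 0 1))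
    {u : ℝ} (h0 : 0 < u) (h2 : u ≤ 2) :
    ‖u * a - (starRingEnd ℂ) (u * a) * ((u ^ 2 - 1) * b)‖ ≤ 1 - ‖((u : ℂ) ^ 2 - 1) * b‖ ^ 2 := by
  have hcl : IsClosed {u : ℝ | ‖u * a - (starRingEnd ℂ) (u * a) * ((u ^ 2 - 1) * b)‖ ≤
      1 - ‖((u : ℂ) ^ 2 - 1) * b‖ ^ 2} := by
    apply isClosed_le <;> fun_prop
  have hsub : Ioo (0 : ℝ) 2 ⊆ {u : ℝ | ‖u * a - (starRingEnd ℂ) (u * a) * ((u ^ 2 - 1) * b)‖ ≤
      1 - ‖((u : ℂ) ^ 2 - 1) * b‖ ^ 2} := fun u hu => (schur (zero_free h hu.1 hu.2)).2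
  have := hcl.closure_subset_iff.2 hsub
  rw [closure_Ioo (by norm_num)] at this
  exact this ⟨h0.le, h2⟩

/-- The two necessary conditions in normalised coordinates. -/
structure Cond (r : ℝ) (w : ℂ) : Prop where
  r0 : 0 ≤ r
  c1 : 2 * A * r * ‖w‖ ≤ 2 * w.re - ‖w‖ ^ 2
  c2 : 4 * r * ‖2 + w‖ ≤ 8 + 2 * w.re - ‖w‖ ^ 2

lemma norm_one_sub_sq (w : ℂ) : ‖1 - w‖ ^ 2 = 1 - 2 * w.re + ‖w‖ ^ 2 := by
  rw [Complex.sq_norm, Complex.sq_norm]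
  simp [normSq_apply]
  ring

lemma normalise {a b : ℂ} (h : InjOn (fun z : ℂ => z + a * z ^ 2 + b * z ^ 3) (ball 0 1)) :
    ∃ (r : ℝ) (w η : ℂ), ‖η‖ = 1 ∧ Cond r w ∧ a = A * r * η ∧ b = (1 - w) / 3 * η ^ 2 := by
  obtain ⟨η, hη, ha⟩ : ∃ η : ℂ, ‖η‖ = 1 ∧ a = ‖a‖ * η :=
    ⟨cexp (arg a * I), by simp, (norm_mul_exp_arg_mul_I a).symm⟩
  have hA : (A : ℂ) ≠ 0 := by exact_mod_cast A_pos.ne'
  have hηc : η * (starRingEnd ℂ) η = 1 := by rw [Complex.mul_conj', hη]; simp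
  set r : ℝ := ‖a‖ / A with hr
  set w : ℂ := 1 - 3 * b * ((starRingEnd ℂ) η) ^ 2 with hw
  have ha' : a = A * r * η := by
    rw [hr]; push_cast; field_simp; exact ha
  have hb' : b = (1 - w) / 3 * η ^ 2 := by
    rw [hw]
    linear_combination (-b * (η * (starRingEnd ℂ) η + 1)) * hηc
  have hr0 : 0 ≤ r := div_nonneg (norm_nonneg _) A_pos.le
  refine ⟨r, w, η, hη, ⟨hr0, ?_, ?_⟩, ha', hb'⟩
  · have h1 := cond_u h (u := 2) (by norm_num) le_rfl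
    have e1 : ((2 : ℝ) : ℂ) * a - (starRingEnd ℂ) (((2 : ℝ) : ℂ) * a) * ((((2 : ℝ) : ℂ) ^ 2 - 1) * b)
        = ((2 * A * r : ℝ) : ℂ) * η * w := by
      rw [ha', hb']
      simp only [map_mul, Complex.conj_ofReal]
      push_cast
      linear_combination (-2 * A * r * (1 - w) * η) * hηc
    have e2 : (((2 : ℝ) : ℂ) ^ 2 - 1) * b = (1 - w) * η ^ 2 := by
      rw [hb']; push_cast; ring
    rw [e1, e2, norm_mul, norm_mul, norm_mul, norm_pow, hη, Complex.norm_real,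
      Real.norm_of_nonneg (by have := A_pos; positivity)] at h1
    simp only [one_pow, mul_one] at h1
    rw [norm_one_sub_sq] at h1
    linarith
  · have hs : (√2 : ℝ) ^ 2 = 2 := Real.sq_sqrt (by norm_num)
    have hsc : ((√2 : ℝ) : ℂ) ^ 2 = 2 := by exact_mod_cast hs
    have h1 := cond_u h (u := √2) (by positivity) (by nlinarith [Real.sqrt_nonneg 2])
    have hAs : ((√2 : ℝ) : ℂ) * A = 4 / 3 := by
      unfold A; push_cast; linear_combination (2 / 3 : ℂ) * hsc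
    have e1 : ((√2 : ℝ) : ℂ) * a - (starRingEnd ℂ) (((√2 : ℝ) : ℂ) * a) *
        ((((√2 : ℝ) : ℂ) ^ 2 - 1) * b) = ((4 / 9 * r : ℝ) : ℂ) * η * (2 + w) := by
      rw [ha', hb', hsc]
      simp only [map_mul, Complex.conj_ofReal]
      push_cast
      linear_combination (-(4 / 3) * r * (1 - w) / 3 * η) * hηc +
        (r * η - r * (starRingEnd ℂ) η * ((1 - w) / 3 * η ^ 2)) * hAs
    have e2 : (((√2 : ℝ) : ℂ) ^ 2 - 1) * b = ((1 / 3 : ℝ) : ℂ) * (1 - w) * η ^ 2 := by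
      rw [hb', hsc]; push_cast; ring
    rw [e1, e2, norm_mul, norm_mul, norm_mul, norm_mul, norm_pow, hη, Complex.norm_real,
      Complex.norm_real, Real.norm_of_nonneg (by positivity),
      Real.norm_of_nonneg (by positivity)] at h1
    simp only [one_pow, mul_one] at h1
    rw [mul_pow, norm_one_sub_sq] at h1
    linarith

namespace Cond
variable {r : ℝ} {w : ℂ}

lemma x_le : w.re ≤ ‖w‖ := Complex.re_le_norm w

lemma x0 (h : Cond r w) : 0 ≤ w.re := by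
  have := h.c1
  have h1 : 0 ≤ 2 * A * r * ‖w‖ := by have := A_pos; have := h.r0; positivity
  nlinarith [sq_nonneg ‖w‖]

lemma r_le (h : Cond r w) : r ≤ 1 - w.re / 4 := by
  have h1 : 2 + w.re ≤ ‖2 + w‖ := by simpa using Complex.re_le_norm (2 + w)
  have h2 := h.c2
  have h3 := h.x0
  have h4 : w.re ^ 2 ≤ ‖w‖ ^ 2 := pow_le_pow_left₀ h3 x_le 2
  have h5 : 4 * r * (2 + w.re) ≤ 4 * r * ‖2 + w‖ := by have := h.r0; gcongr
  by_contra hc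
  push Not at hc
  nlinarith

lemma r_le_one (h : Cond r w) : r ≤ 1 := by linarith [h.r_le, h.x0]

lemma D_sq (r : ℝ) (w : ℂ) : ‖((1 - r ^ 2 : ℝ) : ℂ) - w‖ ^ 2 =
    (1 - r ^ 2) ^ 2 - 2 * (1 - r ^ 2) * w.re + ‖w‖ ^ 2 := by
  rw [Complex.sq_norm, Complex.sq_norm]
  simp only [normSq_apply, sub_re, ofReal_re, sub_im, ofReal_im]
  ring

lemma D1 (h : Cond r w) (hr : r ≤ A) : ‖((1 - r ^ 2 : ℝ) : ℂ) - w‖ ≤ 1 - r ^ 2 := by
  have h0 := h.r0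
  have h1 := h.r_le_one
  apply (pow_le_pow_iff_left₀ (norm_nonneg _) (by nlinarith) two_ne_zero).1
  rw [D_sq]
  have h2 := h.c1
  have h3 : r * r * w.re ≤ A * r * ‖w‖ := by
    have := h.x0
    have := @x_le w
    have := A_pos
    gcongr
  nlinarith

lemma D2 (h : Cond r w) (hr : A ≤ r) : ‖((1 - r ^ 2 : ℝ) : ℂ) - w‖ ≤ 5 / 4 * (1 - r ^ 2) := by
  have h0 := h.r0
  have h1 := h.r_le_one
  apply (pow_le_pow_iff_left₀ (norm_nonneg _) (by nlinarith) two_ne_zero).1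
  rw [D_sq]
  have h2 := h.c1
  have h3 := h.r_le
  have h4 := h.x0
  have h5 : w.re ^ 2 ≤ ‖w‖ ^ 2 := pow_le_pow_left₀ h4 x_le 2
  have hA := A_lo
  set x := w.re
  set n := ‖w‖
  have hn : 0 ≤ n := norm_nonneg _
  obtain ⟨t, rfl⟩ : ∃ t, r = 1 - t := ⟨1 - r, by ring⟩
  have ht : t ≤ 0.0572 := by linarith
  have ht0 : 0 ≤ t := by linarith
  have hx : x ≤ 4 * t := by linarith
  have h6 : A * (1 - t) * n ≤ x * (1 - x / 2) := by nlinarith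
  have h7 : (A * (1 - t) * n) ^ 2 ≤ (x * (1 - x / 2)) ^ 2 :=
    pow_le_pow_left₀ (by positivity) h6 2
  rw [mul_pow, mul_pow, A_sq] at h7
  have h8 : 9 / 8 * (x * (1 - x / 2)) ^ 2 ≤
      (1 - t) ^ 2 * (9 / 16 * (t * (2 - t)) ^ 2 + 2 * (t * (2 - t)) * x) := by
    obtain ⟨d, hd, rfl⟩ : ∃ d, 0 ≤ d ∧ t = x / 4 + d := ⟨t - x / 4, by linarith, by ring⟩
    have hx' : x ≤ 0.23 := by linarith
    have hd' : d ≤ 0.06 := by linarith
    have p1 : 0 ≤ x * d := by positivity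
    have p2 : 0 ≤ x * x := by positivity
    have p3 : 0 ≤ d * d := by positivity
    have q1 : d * d ≤ 0.0036 := by nlinarith
    have q2 : x * d ≤ 0.014 := by nlinarith
    have q3 : x * x ≤ 0.06 := by nlinarith
    have q4 : d * d * d ≤ 0.001 := by nlinarith
    have q5 : x * d * d ≤ 0.001 := by nlinarith
    have q6 : x * x * d ≤ 0.004 := by nlinarith
    have q7 : x * x * x ≤ 0.06 * x := by nlinarith
    have q8 : x * x ≤ 0.23 * x := by nlinarith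
    have P1 : 0 ≤ 9 / 4 - 27 / 4 * d + 117 / 16 * (d * d) - 27 / 8 * (d * d * d)
        + 9 / 16 * ((d * d) * (d * d)) := by
      have : 0 ≤ (d * d) * (d * d) := by positivity
      linarith
    have P2 : 0 ≤ 41 / 8 - 241 / 16 * d - 401 / 64 * x + 245 / 16 * (d * d) + 1119 / 128 * (x * d)
        + 501 / 256 * (x * x) - 199 / 32 * (d * d * d) - 263 / 64 * (x * d * d)
        - 327 / 256 * (x * x * d) - 391 / 2048 * (x * x * x)
        + (27 / 32 * d ^ 4 + 135 / 256 * (x * d ^ 3) + 45 / 256 * (x ^ 2 * d ^ 2)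
          + 135 / 4096 * (x ^ 3 * d) + 27 / 8192 * x ^ 4) := by
      have : 0 ≤ 27 / 32 * d ^ 4 + 135 / 256 * (x * d ^ 3) + 45 / 256 * (x ^ 2 * d ^ 2)
          + 135 / 4096 * (x ^ 3 * d) + 27 / 8192 * x ^ 4 := by positivity
      linarith
    have P3 : 0 ≤ 1 / 64 + 101 / 256 * x - 523 / 4096 * (x * x) - 91 / 8192 * (x * x * x)
        + 9 / 65536 * x ^ 4 := by
      have : 0 ≤ x ^ 4 := by positivity
      linarith
    have := add_nonneg (add_nonneg (mul_nonneg p3 P1) (mul_nonneg p1 P2)) (mul_nonneg p2 P3)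
    linarith [show (1 - (x / 4 + d)) ^ 2 * (9 / 16 * ((x / 4 + d) * (2 - (x / 4 + d))) ^ 2 +
      2 * ((x / 4 + d) * (2 - (x / 4 + d))) * x) - 9 / 8 * (x * (1 - x / 2)) ^ 2 =
      d * d * (9 / 4 - 27 / 4 * d + 117 / 16 * (d * d) - 27 / 8 * (d * d * d)
        + 9 / 16 * ((d * d) * (d * d))) +
      x * d * (41 / 8 - 241 / 16 * d - 401 / 64 * x + 245 / 16 * (d * d) + 1119 / 128 * (x * d)
        + 501 / 256 * (x * x) - 199 / 32 * (d * d * d) - 263 / 64 * (x * d * d)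
        - 327 / 256 * (x * x * d) - 391 / 2048 * (x * x * x)
        + (27 / 32 * d ^ 4 + 135 / 256 * (x * d ^ 3) + 45 / 256 * (x ^ 2 * d ^ 2)
          + 135 / 4096 * (x ^ 3 * d) + 27 / 8192 * x ^ 4)) +
      x * x * (1 / 64 + 101 / 256 * x - 523 / 4096 * (x * x) - 91 / 8192 * (x * x * x)
        + 9 / 65536 * x ^ 4) by ring]
  have h9 : (1 - t) ^ 2 * n ^ 2 ≤
      (1 - t) ^ 2 * (9 / 16 * (t * (2 - t)) ^ 2 + 2 * (t * (2 - t)) * x) := by linarith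
  have h10 := le_of_mul_le_mul_left h9 (by apply pow_pos; linarith)
  nlinarith

lemma D3 (h : Cond r w) : ‖((1 - r ^ 2 : ℝ) : ℂ) - w‖ ≤ 5 / 4 * (1 - r ^ 2) := by
  rcases le_total r A with hr | hr
  · have := h.D1 hr
    have h0 := h.r0
    have h1 := h.r_le_one
    nlinarith
  · exact h.D2 hr

lemma psi (x : ℝ) : 1 / 3 ≤ 2 / 3 + A * x + 2 / 3 * x ^ 2 := by
  nlinarith [sq_nonneg (x + 3 / 4 * A), A_sq]

lemma key (h : Cond r w) : ∃ m : ℝ, 0 < m ∧ m ≤ 1 ∧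
    (∀ x : ℝ, -r ≤ x → m ≤ 1 + A * x + 2 / 3 * x ^ 2 - (r ^ 2 + ‖((1 - r ^ 2 : ℝ) : ℂ) - w‖) / 3) ∧
    ‖((1 - r ^ 2 : ℝ) : ℂ) - w‖ ^ 2 ≤ 8 * (1 - r ^ 2) ^ 2 * (1 + r ^ 2) * m ^ 2 := by
  have h0 := h.r0
  have h1 := h.r_le_one
  set D := ‖((1 - r ^ 2 : ℝ) : ℂ) - w‖ with hD
  have hD0 : 0 ≤ D := norm_nonneg _
  have hε : 0 ≤ 1 - r ^ 2 := by nlinarith
  rcases le_total r A with hr | hr
  · have hD1 : D ≤ 1 - r ^ 2 := h.D1 hr
    have hD2 : D ^ 2 ≤ (1 - r ^ 2) ^ 2 := pow_le_pow_left₀ hD0 hD1 2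
    rcases le_total r 0.36 with hr' | hr'
    · refine ⟨2 / 5, by norm_num, by norm_num, fun x hx => ?_, ?_⟩
      · have := A_lo
        have := A_hi
        nlinarith [sq_nonneg (x + 0.36)]
      · nlinarith [sq_nonneg (1 - r ^ 2), mul_nonneg (sq_nonneg (1 - r ^ 2)) (sq_nonneg r)]
    · refine ⟨1 / 3, by norm_num, by norm_num, fun x _ => ?_, ?_⟩
      · linarith [psi x]
      · have : 1 / 8 ≤ r ^ 2 := by nlinarith
        nlinarith [mul_nonneg (sq_nonneg (1 - r ^ 2)) (sub_nonneg.2 this)]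
  · have hD1 : D ≤ 5 / 4 * (1 - r ^ 2) := h.D2 hr
    have hD2 : D ^ 2 ≤ (5 / 4 * (1 - r ^ 2)) ^ 2 := pow_le_pow_left₀ hD0 hD1 2
    have h89 : 8 / 9 ≤ r ^ 2 := by nlinarith [A_sq, A_pos]
    refine ⟨35 / 108, by norm_num, by norm_num, fun x _ => ?_, ?_⟩
    · linarith [psi x]
    · nlinarith [mul_nonneg (sq_nonneg (1 - r ^ 2)) (sub_nonneg.2 h89), sq_nonneg (1 - r ^ 2)]

lemma n_le (h : Cond r w) : ‖w‖ ≤ 2 := by
  have := h.c1
  have h1 : 0 ≤ 2 * A * r * ‖w‖ := by have := A_pos; have := h.r0; positivity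
  have := @x_le w
  nlinarith [norm_nonneg w]

lemma m_sq (r : ℝ) (w : ℂ) : ‖(r : ℂ) * (1 - w / 4)‖ ^ 2 =
    r ^ 2 * (1 - w.re / 2 + ‖w‖ ^ 2 / 16) := by
  rw [Complex.sq_norm, Complex.sq_norm]
  simp [normSq_apply]
  ring

lemma m_le (h : Cond r w) : ‖(r : ℂ) * (1 - w / 4)‖ ≤ 1 := by
  apply (pow_le_pow_iff_left₀ (norm_nonneg _) zero_le_one two_ne_zero).1
  rw [m_sq]
  have h0 := h.r0
  have h1 := h.r_le_one
  have h2 := h.c1
  have h3 : 0 ≤ 2 * A * r * ‖w‖ := by have := A_pos; positivity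
  have h4 := h.x0
  have h5 : r ^ 2 ≤ 1 := by nlinarith
  have h6 : 1 - w.re / 2 + ‖w‖ ^ 2 / 16 ≤ 1 := by nlinarith
  have h7 : 0 ≤ 1 - w.re / 2 + ‖w‖ ^ 2 / 16 := by
    nlinarith [@x_le w, h.n_le, sq_nonneg ‖w‖]
  nlinarith

lemma star (h : Cond r w) : ‖(1 - w) - ((r : ℂ) * (1 - w / 4)) ^ 2‖ ≤
    1 - ‖(r : ℂ) * (1 - w / 4)‖ ^ 2 + 3 / 2 * (1 - 8 / 9 * r ^ 2 - ‖1 - w‖ ^ 2 / 9) := by
  have e : (1 - w) - ((r : ℂ) * (1 - w / 4)) ^ 2 =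
      (((1 - r ^ 2 : ℝ) : ℂ) - w) + ((r ^ 2 / 2 : ℝ) : ℂ) * w - ((r ^ 2 / 16 : ℝ) : ℂ) * w ^ 2 := by
    push_cast; ring
  have h0 := h.r0
  have h1 := h.r_le_one
  have t : ‖(1 - w) - ((r : ℂ) * (1 - w / 4)) ^ 2‖ ≤
      5 / 4 * (1 - r ^ 2) + r ^ 2 / 2 * ‖w‖ + r ^ 2 / 16 * ‖w‖ ^ 2 := by
    rw [e]
    refine (norm_sub_le _ _).trans ?_
    refine (add_le_add_left (norm_add_le _ _) _).trans ?_
    rw [norm_mul, norm_mul, norm_pow, Complex.norm_real, Complex.norm_real,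
      Real.norm_of_nonneg (by positivity), Real.norm_of_nonneg (by positivity)]
    linarith [h.D3]
  refine t.trans ?_
  rw [m_sq, norm_one_sub_sq]
  have h2 := h.c1
  set x := w.re
  set n := ‖w‖
  have hn : 0 ≤ n := norm_nonneg _
  have hA := A_lo
  have h3 : (r ^ 2 / 4 + 1 / 6) * (2 * A * r * n) ≤ (r ^ 2 / 4 + 1 / 6) * (2 * x - n ^ 2) :=
    mul_le_mul_of_nonneg_left h2 (by positivity)
  have h4 : r / 2 ≤ (r ^ 2 / 4 + 1 / 6) * (2 * A) := by nlinarith [sq_nonneg (r - 0.53)]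
  have h5 : r / 2 * (r * n) ≤ (r ^ 2 / 4 + 1 / 6) * (2 * A) * (r * n) :=
    mul_le_mul_of_nonneg_right h4 (by positivity)
  have h6 : 0 ≤ r ^ 2 * n ^ 2 := by positivity
  have h7 : r ^ 2 ≤ 1 := by nlinarith
  nlinarith

end Cond

end Pool.Agent.MP_d3fa2a_an

end

section

/-! Univalence of the extremal cubic and of the extremal quadratic. -/

namespace Pool.Agent.MP_d3fa2a_an

open Complex Metric Real Set

lemma real_core {x y c : ℝ} (hc : c ^ 2 = 2)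
    (hR : 0 < 2 * (x ^ 2 + y ^ 2) - (x ^ 2 + y ^ 2) ^ 2 - 4 * x ^ 2) :
    (2 * (x ^ 2 + y ^ 2) - (x ^ 2 + y ^ 2) ^ 2 - 4 * x ^ 2) ^ 2 ≤
      ((x ^ 2 + y ^ 2) * x + c * (x ^ 2 - y ^ 2)) ^ 2 +
        (y * (2 - (x ^ 2 + y ^ 2) - 2 * c * x)) ^ 2 := by
  obtain ⟨N, hN⟩ : ∃ N, N = x ^ 2 + y ^ 2 := ⟨_, rfl⟩
  obtain ⟨W, hW⟩ : ∃ W, W = 2 * c * x := ⟨_, rfl⟩
  obtain ⟨R, hRd⟩ : ∃ R, R = 2 * N - N ^ 2 - 4 * x ^ 2 := ⟨_, rfl⟩
  have hR2 : R = 2 * N - N ^ 2 - W ^ 2 / 2 := by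
    rw [hRd, hW]; linear_combination 2 * x ^ 2 * hc
  have hL : ((x ^ 2 + y ^ 2) * x + c * (x ^ 2 - y ^ 2)) ^ 2 +
        (y * (2 - (x ^ 2 + y ^ 2) - 2 * c * x)) ^ 2 =
      N ^ 2 + 2 * N - (N - 1) * R - W * (2 * N + R) := by
    rw [hRd, hW, hN]
    linear_combination (x ^ 2 + y ^ 2) ^ 2 * hc
  rw [hL, ← hN, ← hRd]
  rw [← hN, ← hRd] at hR
  obtain ⟨Q, hQ⟩ : ∃ Q, Q = 3 / 2 * (N - 2 / 3) ^ 2 + 3 / 4 * (W - 4 / 3) ^ 2 := ⟨_, rfl⟩
  have hQ0 : 0 ≤ Q := by rw [hQ]; positivity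
  have key : N ^ 2 + 2 * N - (N - 1) * R - W * (2 * N + R) - R ^ 2 =
      (4 * (N - 2 / 3) + (W - 4 / 3) + 2 * Q) ^ 2 / 18 + Q * R := by
    rw [hQ, hR2]; ring
  have : 0 ≤ Q * R := mul_nonneg hQ0 hR.le
  nlinarith [sq_nonneg (4 * (N - 2 / 3) + (W - 4 / 3) + 2 * Q)]

lemma strict_schur {z₁ z₂ : ℂ} (h1 : ‖z₁‖ < 1) (h2 : ‖z₂‖ < 1) :
    ‖z₁ * z₂‖ < 1 ∧ ‖(z₁ + z₂) - (starRingEnd ℂ) (z₁ + z₂) * (z₁ * z₂)‖ < 1 - ‖z₁ * z₂‖ ^ 2 := by
  have n1 := norm_nonneg z₁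
  have n2 := norm_nonneg z₂
  have hp : ‖z₁‖ * ‖z₂‖ < 1 := by nlinarith
  constructor
  · rwa [norm_mul]
  · have e : (z₁ + z₂) - (starRingEnd ℂ) (z₁ + z₂) * (z₁ * z₂) =
        z₁ * ((1 - ‖z₂‖ ^ 2 : ℝ) : ℂ) + z₂ * ((1 - ‖z₁‖ ^ 2 : ℝ) : ℂ) := by
      have c1 := Complex.mul_conj' z₁
      have c2 := Complex.mul_conj' z₂
      push_cast
      simp only [map_add]
      linear_combination -z₂ * c1 - z₁ * c2
    rw [e]
    refine (norm_add_le _ _).trans_lt ?_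
    rw [norm_mul, norm_mul, Complex.norm_real, Complex.norm_real,
      Real.norm_of_nonneg (by nlinarith), Real.norm_of_nonneg (by nlinarith), norm_mul]
    have : 0 < (1 - ‖z₁‖) * (1 - ‖z₂‖) * (1 - ‖z₁‖ * ‖z₂‖) := by
      apply mul_pos (mul_pos (by linarith) (by linarith))
      linarith
    nlinarith

lemma quot_ne {z₁ z₂ : ℂ} (h1 : ‖z₁‖ < 1) (h2 : ‖z₂‖ < 1) :
    1 + A * (z₁ + z₂) + (z₁ ^ 2 + z₁ * z₂ + z₂ ^ 2) / 3 ≠ 0 := by
  intro h0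
  obtain ⟨k1, k2⟩ := strict_schur h1 h2
  have hc : (√2 : ℝ) ^ 2 = 2 := Real.sq_sqrt (by norm_num)
  have hcc : ((√2 : ℝ) : ℂ) ^ 2 = 2 := by exact_mod_cast hc
  obtain ⟨t, ht⟩ : ∃ t : ℂ, t = -(z₁ + z₂) - (√2 : ℝ) := ⟨_, rfl⟩
  have hs : z₁ + z₂ = -(t + (√2 : ℝ)) := by rw [ht]; ring
  have hp : z₁ * z₂ = 1 + t ^ 2 := by
    unfold A at h0
    push_cast at h0
    rw [ht]
    linear_combination (-3 : ℂ) * h0 - hcc
  rw [hs, hp] at k2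
  rw [hp] at k1
  have hR : 1 - ‖1 + t ^ 2‖ ^ 2 =
      2 * (t.re ^ 2 + t.im ^ 2) - (t.re ^ 2 + t.im ^ 2) ^ 2 - 4 * t.re ^ 2 := by
    rw [Complex.sq_norm]
    simp only [normSq_apply, pow_two, add_re, add_im, mul_re, mul_im, one_re, one_im]
    ring
  have hL : ‖-(t + (√2 : ℝ)) - (starRingEnd ℂ) (-(t + (√2 : ℝ))) * (1 + t ^ 2)‖ ^ 2 =
      ((t.re ^ 2 + t.im ^ 2) * t.re + √2 * (t.re ^ 2 - t.im ^ 2)) ^ 2 +
        (t.im * (2 - (t.re ^ 2 + t.im ^ 2) - 2 * √2 * t.re)) ^ 2 := by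
    rw [Complex.sq_norm]
    simp only [normSq_apply, pow_two, add_re, add_im, mul_re, mul_im, one_re, one_im, sub_re,
      sub_im, neg_re, neg_im, conj_re, conj_im, ofReal_re, ofReal_im]
    ring
  have hR0 : 0 < 1 - ‖1 + t ^ 2‖ ^ 2 := by nlinarith [norm_nonneg (1 + t ^ 2)]
  have := real_core (x := t.re) (y := t.im) hc (hR ▸ hR0)
  rw [← hR, ← hL] at this
  have h3 := pow_lt_pow_left₀ k2 (norm_nonneg _) (two_ne_zero)
  linarith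

theorem S_injOn : InjOn (fun z : ℂ => z + (A : ℂ) * z ^ 2 + (1 / 3 : ℂ) * z ^ 3) (ball 0 1) := by
  intro z₁ h1 z₂ h2 h
  simp only [mem_ball, dist_zero_right] at h1 h2
  have h3 := quot_ne h1 h2
  have h4 : (z₁ - z₂) * (1 + A * (z₁ + z₂) + (z₁ ^ 2 + z₁ * z₂ + z₂ ^ 2) / 3) = 0 := by
    have h' : z₁ + (A : ℂ) * z₁ ^ 2 + (1 / 3 : ℂ) * z₁ ^ 3 =
      z₂ + (A : ℂ) * z₂ ^ 2 + (1 / 3 : ℂ) * z₂ ^ 3 := h
    linear_combination h'
  rcases mul_eq_zero.1 h4 with h5 | h5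
  · exact sub_eq_zero.1 h5
  · exact absurd h5 h3

theorem Q_injOn : InjOn (fun z : ℂ => z + (1 / 2 : ℂ) * z ^ 2) (ball 0 1) := by
  intro z₁ h1 z₂ h2 h
  simp only [mem_ball, dist_zero_right] at h1 h2
  have h4 : (z₁ - z₂) * (2 + (z₁ + z₂)) = 0 := by
    have h' : z₁ + (1 / 2 : ℂ) * z₁ ^ 2 = z₂ + (1 / 2 : ℂ) * z₂ ^ 2 := h
    linear_combination 2 * h'
  rcases mul_eq_zero.1 h4 with h5 | h5
  · exact sub_eq_zero.1 h5
  · exfalso
    have h6 : z₁ + z₂ = -2 := by linear_combination h5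
    have h7 := norm_add_le z₁ z₂
    rw [h6] at h7
    simp at h7
    linarith

lemma quad_coeff {a : ℂ} (h : InjOn (fun z : ℂ => z + a * z ^ 2) (ball 0 1)) : ‖a‖ ≤ 1 / 2 := by
  have h' : InjOn (fun z : ℂ => z + a * z ^ 2 + 0 * z ^ 3) (ball 0 1) := by simpa using h
  have := cond_u h' (u := 2) (by norm_num) le_rfl
  simp only [mul_zero, sub_zero, norm_zero, norm_mul, Complex.norm_real] at this
  norm_num at this
  linarith

end Pool.Agent.MP_d3fa2a_an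

end
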