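import Mathlib
import Pool.Agent.Mg.Fd3fa2a.Gc16755

section

/-! Circle averages on the unit circle: rotation, mean value, dilation contraction,
and a two-step Parseval identity. -/

namespace Pool.Agent.MP_d3fa2a_an

open Complex Metric Real Set

/-- average over the unit circle -/
noncomputable def avg (f : ℂ → ℝ) : ℝ := circleAverage f 0 1

lemma cint {E : Type*} [NormedAddCommGroup E] {f : ℂ → E} (hf : ContinuousOn f (sphere 0 1)) :
    CircleIntegrable f 0 1 := hf.circleIntegrable zero_le_one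

lemma avg_mono {f g : ℂ → ℝ} (hf : ContinuousOn f (sphere 0 1)) (hg : ContinuousOn g (sphere 0 1))
    (h : ∀ z : ℂ, ‖z‖ = 1 → f z ≤ g z) : avg f ≤ avg g := by
  apply circleAverage_mono (cint hf) (cint hg)
  intro x hx
  apply h
  simpa using hx

lemma avg_congr {f g : ℂ → ℝ} (h : ∀ z : ℂ, ‖z‖ = 1 → f z = g z) : avg f = avg g := by
  apply circleAverage_congr_sphere
  intro x hx
  apply h
  simpa using hx

lemma avg_add {f g : ℂ → ℝ} (hf : ContinuousOn f (sphere 0 1)) (hg : ContinuousOn g (sphere 0 1)) :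
    avg (fun z => f z + g z) = avg f + avg g :=
  circleAverage_fun_add (cint hf) (cint hg)

lemma avg_const (a : ℝ) : avg (fun _ => a) = a := circleAverage_const a 0 1

lemma avg_mul (a : ℝ) (f : ℂ → ℝ) : avg (fun z => a * f z) = a * avg f := by
  have := circleAverage_fun_smul (a := a) (f := f) (c := 0) (R := 1)
  simpa [avg] using this

lemma avg_rot (f : ℂ → ℝ) {u : ℂ} (hu : ‖u‖ = 1) : avg (fun z => f (u * z)) = avg f := by
  unfold avg
  rw [circleAverage_eq_integral_add (f := f) (arg u), circleAverage_def]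
  congr 1
  apply intervalIntegral.integral_congr
  intro θ _
  have h : u = cexp (arg u * I) := by
    have := norm_mul_exp_arg_mul_I u
    rw [hu] at this
    simpa using this.symm
  simp only [circleMap]
  congr 1
  conv_lhs => rw [h]
  push_cast
  rw [add_mul, Complex.exp_add]
  ring

lemma avg_re {h : ℂ → ℂ} (hh : DiffContOnCl ℂ h (ball 0 1)) :
    avg (fun z => (h z).re) = (h 0).re := by
  have h1 : DiffContOnCl ℂ h (ball 0 |(1 : ℝ)|) := by simpa using hh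
  have h2 := h1.circleAverage
  have h3 : ContinuousOn h (sphere 0 1) :=
    hh.continuousOn.mono (by rw [closure_ball _ one_ne_zero]; exact sphere_subset_closedBall)
  have h4 := Complex.reCLM.circleAverage_comp_comm (cint h3)
  rw [h2] at h4
  exact h4

lemma contOn_cl {h : ℂ → ℂ} (hh : DiffContOnCl ℂ h (ball 0 1)) :
    ContinuousOn h (closedBall 0 1) := by
  have := hh.continuousOn
  rwa [closure_ball _ one_ne_zero] at this

lemma contOn_sph {h : ℂ → ℂ} (hh : DiffContOnCl ℂ h (ball 0 1)) :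
    ContinuousOn h (sphere 0 1) := (contOn_cl hh).mono sphere_subset_closedBall

lemma dcc_mul {h : ℂ → ℂ} (hh : DiffContOnCl ℂ h (ball 0 1)) {u : ℂ} (hu : ‖u‖ ≤ 1) :
    DiffContOnCl ℂ (fun z => h (u * z)) (ball 0 1) := by
  apply hh.comp (g := fun z => u * z) (by apply Differentiable.diffContOnCl; fun_prop)
  intro z hz
  simp only [mem_ball, dist_zero_right, norm_mul] at hz ⊢
  calc ‖u‖ * ‖z‖ ≤ 1 * ‖z‖ := by gcongr
    _ < 1 := by simpa using hz

lemma contOn_poisson {c : ℂ} (hc : ‖c‖ < 1) :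
    ContinuousOn (fun w : ℂ => poissonKernel 0 c w) (sphere 0 1) := by
  unfold poissonKernel
  apply ContinuousOn.div (by fun_prop) (by fun_prop)
  intro w hw
  have hw' : ‖w‖ = 1 := by simpa using hw
  have : w - 0 - (c - 0) ≠ 0 := by
    intro h0
    have : w = c := by simpa [sub_eq_zero] using h0
    rw [this] at hw'
    linarith
  positivity

lemma poisson_nonneg {c w : ℂ} (hc : ‖c‖ < 1) (hw : ‖w‖ = 1) : 0 ≤ poissonKernel 0 c w := by
  unfold poissonKernel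
  apply div_nonneg _ (by positivity)
  simp only [sub_zero, hw]
  nlinarith [norm_nonneg c]

lemma avg_poisson_re {h : ℂ → ℂ} (hh : DiffContOnCl ℂ h (ball 0 1)) {c : ℂ} (hc : ‖c‖ < 1) :
    avg (fun w => poissonKernel 0 c w * (h w).re) = (h c).re := by
  have h2 := hh.circleAverage_poissonKernel_smul (w := c) (by simpa using hc)
  have h3 : ContinuousOn (poissonKernel 0 c • h) (sphere 0 1) :=
    (contOn_poisson hc).smul (contOn_sph hh)
  have h4 := Complex.reCLM.circleAverage_comp_comm (cint h3)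
  rw [h2] at h4
  rw [show (h c).re = reCLM (h c) from rfl, ← h4]
  unfold avg
  congr 1
  ext w
  simp

lemma sq_le_poisson {h : ℂ → ℂ} (hh : DiffContOnCl ℂ h (ball 0 1)) {c : ℂ} (hc : ‖c‖ < 1) :
    ‖h c‖ ^ 2 ≤ avg (fun w => poissonKernel 0 c w * ‖h w‖ ^ 2) := by
  set v := h c with hv
  have hk : DiffContOnCl ℂ (fun w => 2 * (starRingEnd ℂ v) * h w - (‖v‖ ^ 2 : ℝ)) (ball 0 1) := by
    apply DiffContOnCl.sub_const
    exact ⟨hh.1.const_mul _, continuousOn_const.mul hh.2⟩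
  have h1 := avg_poisson_re hk hc
  have h2 : (2 * (starRingEnd ℂ v) * h c - (‖v‖ ^ 2 : ℝ)).re = ‖v‖ ^ 2 := by
    rw [← hv, mul_assoc, conj_mul', Complex.sub_re, Complex.ofReal_re]
    norm_cast
    ring
  rw [h2] at h1
  rw [← h1]
  apply avg_mono
  · exact (contOn_poisson hc).mul (continuous_re.comp_continuousOn (contOn_sph hk))
  · exact (contOn_poisson hc).mul ((contOn_sph hh).norm.pow 2)
  · intro w hw
    apply mul_le_mul_of_nonneg_left _ (poisson_nonneg hc hw)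
    rw [Complex.sq_norm, Complex.sq_norm]
    simp only [normSq_apply, sub_re, mul_re, mul_im, conj_re, conj_im, ofReal_re, re_ofNat,
      im_ofNat]
    nlinarith [sq_nonneg ((h w).re - v.re), sq_nonneg ((h w).im - v.im)]

/-- The quadratic mean does not increase under dilation. -/
lemma avg_dilate {h : ℂ → ℂ} (hh : DiffContOnCl ℂ h (ball 0 1)) {c : ℂ} (hc : ‖c‖ ≤ 1) :
    avg (fun z => ‖h (c * z)‖ ^ 2) ≤ avg (fun z => ‖h z‖ ^ 2) := by
  rcases eq_or_lt_of_le hc with hc1 | hc1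
  · exact (avg_rot (fun z => ‖h z‖ ^ 2) hc1).le
  have hm : ∀ θ : ℝ, ‖circleMap 0 1 θ‖ = 1 := fun θ => by simp
  have hcont : Continuous (fun p : ℝ × ℝ =>
      poissonKernel 0 c (circleMap 0 1 p.2) * ‖h (circleMap 0 1 p.1 * circleMap 0 1 p.2)‖ ^ 2) := by
    apply Continuous.mul
    · exact (contOn_poisson hc1).comp_continuous (by fun_prop) (fun p => by simp)
    · apply Continuous.pow
      apply Continuous.norm
      exact (contOn_sph hh).comp_continuous (by fun_prop) (fun p => by simp)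
  have step1 : avg (fun z => ‖h (c * z)‖ ^ 2) ≤ (2 * π)⁻¹ • ∫ θ in (0 : ℝ)..2 * π,
      (2 * π)⁻¹ • ∫ φ in (0 : ℝ)..2 * π, poissonKernel 0 c (circleMap 0 1 φ) *
        ‖h (circleMap 0 1 θ * circleMap 0 1 φ)‖ ^ 2 := by
    unfold avg
    rw [circleAverage_def]
    simp only [smul_eq_mul]
    apply mul_le_mul_of_nonneg_left _ (by positivity)
    apply intervalIntegral.integral_mono_on (by positivity)
    · exact cint ((contOn_sph (dcc_mul hh hc)).norm.pow 2)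
    · apply Continuous.intervalIntegrable
      apply Continuous.mul continuous_const
      exact intervalIntegral.continuous_parametric_intervalIntegral_of_continuous' hcont _ _
    · intro θ _
      have := sq_le_poisson (dcc_mul hh (hm θ).le) hc1
      rw [mul_comm c]
      simpa [avg, circleAverage_def] using this
  refine step1.trans (le_of_eq ?_)
  rw [intervalIntegral.integral_smul, MeasureTheory.intervalIntegral_intervalIntegral_swap]
  · have : ∀ φ : ℝ, (∫ θ in (0 : ℝ)..2 * π, poissonKernel 0 c (circleMap 0 1 φ) *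
        ‖h (circleMap 0 1 θ * circleMap 0 1 φ)‖ ^ 2) =
        (2 * π * avg (fun z => ‖h z‖ ^ 2)) * poissonKernel 0 c (circleMap 0 1 φ) := by
      intro φ
      rw [intervalIntegral.integral_const_mul, ← avg_rot (fun z => ‖h z‖ ^ 2) (hm φ)]
      simp only [avg, circleAverage_def, smul_eq_mul]
      have : ∀ x : ℝ, circleMap 0 1 φ * circleMap 0 1 x = circleMap 0 1 x * circleMap 0 1 φ :=
        fun x => mul_comm _ _
      simp_rw [this]
      generalize (∫ x in (0 : ℝ)..2 * π, ‖h (circleMap 0 1 x * circleMap 0 1 φ)‖ ^ 2) = J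
      field_simp
    simp_rw [this]
    rw [intervalIntegral.integral_const_mul]
    have h1 := avg_poisson_re (h := fun _ => (1 : ℂ)) diffContOnCl_const hc1
    simp only [avg, circleAverage_def, smul_eq_mul, one_re, mul_one] at h1 ⊢
    have hpi : (2 * π) ≠ 0 := by positivity
    have h2 : (∫ φ in (0 : ℝ)..2 * π, poissonKernel 0 c (circleMap 0 1 φ)) = 2 * π := by
      field_simp at h1
      linarith
    rw [h2]
    field_simp
  · apply (hcont.continuousOn.integrableOn_compact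
      (K := uIcc (0 : ℝ) (2 * π) ×ˢ uIcc (0 : ℝ) (2 * π)) (isCompact_uIcc.prod isCompact_uIcc)).mono_set
    exact prod_mono uIoc_subset_uIcc uIoc_subset_uIcc

/-- Parseval identity for the first two coefficients. -/
lemma avg_parseval {k : ℂ → ℂ} (hk : DiffContOnCl ℂ k (ball 0 1)) (α : ℂ) :
    avg (fun z => ‖1 + α * z + z ^ 2 * k z‖ ^ 2) = 1 + ‖α‖ ^ 2 + avg (fun z => ‖k z‖ ^ 2) := by
  have hd : DiffContOnCl ℂ
      (fun z => 2 * (α * z + z ^ 2 * k z + (starRingEnd ℂ α) * (z * k z))) (ball 0 1) := by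
    have e1 : DiffContOnCl ℂ (fun z : ℂ => z) (ball 0 1) := differentiable_id.diffContOnCl
    have e2 : DiffContOnCl ℂ (fun z : ℂ => z * k z) (ball 0 1) :=
      ⟨e1.1.mul hk.1, e1.2.mul hk.2⟩
    have e3 : DiffContOnCl ℂ (fun z : ℂ => z ^ 2 * k z) (ball 0 1) :=
      ⟨(e1.1.pow 2).mul hk.1, (e1.2.pow 2).mul hk.2⟩
    exact ⟨(((e1.1.const_mul α).add e3.1).add (e2.1.const_mul _)).const_mul 2,
      continuousOn_const.mul (((continuousOn_const.mul e1.2).add e3.2).add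
        (continuousOn_const.mul e2.2))⟩
  have h0 := avg_re hd
  simp only [mul_zero, ne_eq, OfNat.ofNat_ne_zero, not_false_eq_true, zero_pow, zero_mul,
    add_zero, zero_re] at h0
  have h1 : avg (fun z => ‖1 + α * z + z ^ 2 * k z‖ ^ 2) =
      avg (fun z => ((1 + ‖α‖ ^ 2) + ‖k z‖ ^ 2) +
        (2 * (α * z + z ^ 2 * k z + (starRingEnd ℂ α) * (z * k z))).re) := by
    apply avg_congr
    intro z hz
    have hz2 : z.re ^ 2 + z.im ^ 2 = 1 := by
      have := Complex.sq_norm z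
      rw [hz, normSq_apply] at this
      nlinarith
    rw [Complex.sq_norm, Complex.sq_norm, Complex.sq_norm]
    simp only [normSq_apply, pow_two, add_re, add_im, mul_re, mul_im, one_re,
      one_im, conj_re, conj_im, re_ofNat, im_ofNat]
    set x := z.re
    set y := z.im
    set p := (k z).re
    set r := (k z).im
    have hN : x * x + y * y = 1 := by nlinarith
    linear_combination ((α.re * α.re + α.im * α.im) + (p * p + r * r) * (x * x + y * y + 1)
      + 2 * (α.re * (x * p - y * r) + α.im * (x * r + y * p))) * hN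
  rw [h1, avg_add, avg_add, avg_const, h0, add_zero]
  · exact continuousOn_const
  · exact (contOn_sph hk).norm.pow 2
  · exact continuousOn_const.add ((contOn_sph hk).norm.pow 2)
  · exact continuous_re.comp_continuousOn (contOn_sph hd)

end Pool.Agent.MP_d3fa2a_an

end

section

/-! The range `0 < q ≤ 2`: comparison in the Hardy space. -/

namespace Pool.Agent.MP_d3fa2a_an

open Complex Metric Real Set

lemma pow_split {f : ℂ → ℂ} (hf : Differentiable ℂ f) (h0 : f 0 = 1) {α : ℂ}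
    (h1 : HasDerivAt f α 0) (hre : ∀ z : ℂ, ‖z‖ ≤ 1 → 0 < (f z).re) (l : ℝ) :
    ∃ k : ℂ → ℂ, DiffContOnCl ℂ k (ball 0 1) ∧
      ∀ z, f z ^ (l : ℂ) = 1 + (l * α) * z + z ^ 2 * k z := by
  set U : Set ℂ := {z | 0 < (f z).re} with hU
  have hUo : IsOpen U := isOpen_lt continuous_const (continuous_re.comp hf.continuous)
  have hsub : closedBall (0 : ℂ) 1 ⊆ U := fun z hz => hre z (by simpa using hz)
  have h0U : U ∈ nhds (0 : ℂ) := hUo.mem_nhds (hsub (by simp))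
  set F : ℂ → ℂ := fun z => f z ^ (l : ℂ) with hF
  have hFd : DifferentiableOn ℂ F U := fun z hz =>
    ((hf z).hasDerivAt.cpow_const (c := l) (Or.inl hz)).differentiableAt.differentiableWithinAt
  have hk : DifferentiableOn ℂ (dslope (dslope F 0) 0) U :=
    (differentiableOn_dslope h0U).2 ((differentiableOn_dslope h0U).2 hFd)
  refine ⟨dslope (dslope F 0) 0, hk.diffContOnCl_ball hsub, fun z => ?_⟩
  have e1 := sub_smul_dslope F 0 z
  have e2 := sub_smul_dslope (dslope F 0) 0 z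
  have e3 : dslope F 0 0 = l * α := by
    rw [dslope_same]
    have := (h1.cpow_const (c := l) (by rw [h0]; exact Complex.one_mem_slitPlane)).deriv
    rw [h0] at this
    simpa using this
  have e4 : F 0 = 1 := by simp [hF, h0]
  simp only [sub_zero, smul_eq_mul] at e1 e2
  rw [e3] at e2
  rw [e4] at e1
  show F z = _
  linear_combination -e1 - z * e2

lemma norm_rpow_eq (y : ℂ) (l : ℝ) : ‖y‖ ^ (2 * l) = ‖y ^ (l : ℂ)‖ ^ 2 := by
  rw [Complex.norm_cpow_real, mul_comm, Real.rpow_mul (norm_nonneg _)]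
  norm_cast

lemma cpow_lip {m l : ℝ} (hm : 0 < m) (hm1 : m ≤ 1) (hl : 0 < l) (hl1 : l ≤ 1) {P Q : ℂ}
    (hP : m ≤ P.re) (hQ : m ≤ Q.re) : ‖Q ^ (l : ℂ) - P ^ (l : ℂ)‖ ≤ l / m * ‖Q - P‖ := by
  apply Convex.norm_image_sub_le_of_norm_hasDerivWithin_le (s := {z : ℂ | m ≤ z.re})
    (f := fun z : ℂ => z ^ (l : ℂ)) (f' := fun z => l * z ^ ((l : ℂ) - 1)) _ _
    (convex_halfSpace_re_ge m) hP hQ
  · intro z hz
    have hz' : m ≤ z.re := hz
    have := (hasDerivAt_id z).cpow_const (c := l) (Or.inl (by simp; linarith))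
    simpa using this.hasDerivWithinAt
  · intro z hz
    have hz' : m ≤ z.re := hz
    have hn : m ≤ ‖z‖ := hz'.trans (Complex.re_le_norm z)
    rw [norm_mul, Complex.norm_real, Real.norm_of_nonneg hl.le,
      show (l : ℂ) - 1 = ((l - 1 : ℝ) : ℂ) by push_cast; ring, Complex.norm_cpow_real,
      div_eq_mul_inv]
    apply mul_le_mul_of_nonneg_left _ hl.le
    calc ‖z‖ ^ (l - 1) ≤ m ^ (l - 1) := Real.rpow_le_rpow_of_nonpos hm hn (by linarith)
      _ ≤ m ^ (-1 : ℝ) := Real.rpow_le_rpow_of_exponent_ge hm hm1 (by linarith)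
      _ = m⁻¹ := Real.rpow_neg_one m

lemma re_lower {r D : ℝ} {v y : ℂ} (hv : ‖v‖ ≤ r) (hy : ‖y‖ ≤ D / 3) :
    1 + A * v.re + 2 / 3 * v.re ^ 2 - (r ^ 2 + D) / 3 ≤ (1 + A * v + v ^ 2 / 3 + y).re := by
  have h1 : -(D / 3) ≤ y.re := by
    have := Complex.abs_re_le_norm y
    linarith [neg_abs_le y.re]
  have h2 : v.re ^ 2 + v.im ^ 2 ≤ r ^ 2 := by
    have := pow_le_pow_left₀ (norm_nonneg _) hv 2
    rw [Complex.sq_norm, normSq_apply] at this
    nlinarith
  simp only [add_re, one_re, mul_re, ofReal_re, ofReal_im, zero_mul, sub_zero, div_ofNat_re,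
    pow_two]
  nlinarith

lemma neg_le_re {r : ℝ} {v : ℂ} (hv : ‖v‖ ≤ r) : -r ≤ v.re := by
  have := Complex.abs_re_le_norm v
  linarith [neg_abs_le v.re]

lemma G_re {z : ℂ} (hz : ‖z‖ ≤ 1) : 1 / 3 ≤ (1 + A * z + z ^ 2 / 3).re := by
  have := re_lower (D := 0) (y := 0) hz (by simp)
  rw [add_zero (1 + A * z + z ^ 2 / 3 : ℂ)] at this
  linarith [Cond.psi z.re]

lemma two_term {s c X Y : ℝ} (hs0 : 0 ≤ s) (hs1 : s ≤ 1) (hY : Y ^ 2 ≤ c * (1 - s) ^ 2 * (1 + s)) :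
    (s * X + Y) ^ 2 ≤ X ^ 2 + c * (1 - s) := by
  rcases eq_or_lt_of_le hs1 with hs2 | hs2
  · rw [hs2] at hY ⊢
    have : Y = 0 := by nlinarith
    rw [this]
    nlinarith
  · have hpos : 0 < (1 - s) * (1 + s) := by nlinarith
    apply le_of_mul_le_mul_left _ hpos
    nlinarith [sq_nonneg ((1 - s) * (1 + s) * X - s * Y)]

theorem small {r : ℝ} {w : ℂ} (h : Cond r w) {l : ℝ} (hl : 0 < l) (hl1 : l ≤ 1) :
    avg (fun z => ‖1 + A * r * z + (1 - w) / 3 * z ^ 2‖ ^ (2 * l)) ≤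
      avg (fun z => ‖1 + A * z + z ^ 2 / 3‖ ^ (2 * l)) := by
  obtain ⟨m, hm, hm1, hlow, hD⟩ := h.key
  have h0 := h.r0
  have h1 := h.r_le_one
  set D := ‖((1 - r ^ 2 : ℝ) : ℂ) - w‖ with hDdef
  have hD0 : 0 ≤ D := norm_nonneg _
  have hrz : ∀ z : ℂ, ‖z‖ ≤ 1 → ‖(r : ℂ) * z‖ ≤ r := by
    intro z hz
    rw [norm_mul, Complex.norm_real, Real.norm_of_nonneg h0]
    nlinarith
  have hsplit : ∀ z : ℂ, 1 + A * r * z + (1 - w) / 3 * z ^ 2 =
      1 + A * (r * z) + (r * z) ^ 2 / 3 + (((1 - r ^ 2 : ℝ) : ℂ) - w) / 3 * z ^ 2 := by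
    intro z; push_cast; ring
  have hy : ∀ z : ℂ, ‖z‖ ≤ 1 → ‖(((1 - r ^ 2 : ℝ) : ℂ) - w) / 3 * z ^ 2‖ ≤ D / 3 := by
    intro z hz
    rw [norm_mul, norm_div, norm_pow, ← hDdef]
    have : ‖z‖ ^ 2 ≤ 1 := pow_le_one₀ (norm_nonneg _) hz
    simp only [Complex.norm_ofNat]
    nlinarith
  have hg : ∀ z : ℂ, ‖z‖ ≤ 1 → m ≤ (1 + A * r * z + (1 - w) / 3 * z ^ 2).re := by
    intro z hz
    rw [hsplit]
    exact (hlow _ (neg_le_re (hrz z hz))).trans (re_lower (hrz z hz) (hy z hz))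
  have hG : ∀ z : ℂ, ‖z‖ ≤ 1 → m ≤ (1 + A * (r * z) + (r * z) ^ 2 / 3 : ℂ).re := by
    intro z hz
    have := re_lower (D := D) (y := 0) (hrz z hz) (by simp; positivity)
    rw [add_zero (1 + A * (r * z) + (r * z) ^ 2 / 3 : ℂ)] at this
    exact (hlow _ (neg_le_re (hrz z hz))).trans this
  obtain ⟨k, hk, ek⟩ := pow_split (f := fun z => 1 + A * r * z + (1 - w) / 3 * z ^ 2)
    (by fun_prop) (by simp) (α := A * r)
    (by
      have := (((hasDerivAt_id (0 : ℂ)).const_mul ((A : ℂ) * r)).const_add 1).fun_add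
        (((hasDerivAt_id (0 : ℂ)).fun_pow 2).const_mul ((1 - w) / 3))
      simpa using this)
    (fun z hz => hm.trans_le (hg z hz)) l
  obtain ⟨K, hK, eK⟩ := pow_split (f := fun z => 1 + A * z + z ^ 2 / 3)
    (by fun_prop) (by simp) (α := A)
    (by
      have := (((hasDerivAt_id (0 : ℂ)).const_mul (A : ℂ)).const_add 1).fun_add
        (((hasDerivAt_id (0 : ℂ)).fun_pow 2).div_const 3)
      simpa using this)
    (fun z hz => lt_of_lt_of_le (by norm_num) (G_re hz)) l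
  simp only [norm_rpow_eq, ek, eK]
  rw [avg_parseval hk, avg_parseval hK]
  have hr1 : ‖(r : ℂ)‖ ≤ 1 := by rwa [Complex.norm_real, Real.norm_of_nonneg h0]
  have hdil := avg_dilate hK hr1
  have hpt : avg (fun z => ‖k z‖ ^ 2) ≤
      avg (fun z => ‖K (r * z)‖ ^ 2 + l ^ 2 * (8 / 9) * (1 - r ^ 2)) := by
    apply avg_mono ((contOn_sph hk).norm.pow 2)
      (((contOn_sph (dcc_mul hK hr1)).norm.pow 2).add continuousOn_const)
    intro z hz
    show ‖k z‖ ^ 2 ≤ ‖K (r * z)‖ ^ 2 + l ^ 2 * (8 / 9) * (1 - r ^ 2)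
    have e1 := ek z
    have e2 := eK (r * z)
    have lip := cpow_lip hm hm1 hl hl1 (hG z hz.le) (hg z hz.le)
    rw [e1, e2] at lip
    have e3 : 1 + l * (A * r) * z + z ^ 2 * k z - (1 + l * A * (r * z) + (r * z) ^ 2 * K (r * z))
        = z ^ 2 * (k z - ((r ^ 2 : ℝ) : ℂ) * K (r * z)) := by push_cast; ring
    have e4 : 1 + A * r * z + (1 - w) / 3 * z ^ 2 - (1 + A * (r * z) + (r * z) ^ 2 / 3) =
        (((1 - r ^ 2 : ℝ) : ℂ) - w) / 3 * z ^ 2 := by push_cast; ring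
    rw [e3, e4, norm_mul, norm_pow, hz, one_pow, one_mul] at lip
    have lip2 : ‖k z - ((r ^ 2 : ℝ) : ℂ) * K (r * z)‖ ≤ l / m * (D / 3) :=
      lip.trans (mul_le_mul_of_nonneg_left (hy z hz.le) (by positivity))
    have tri : ‖k z‖ ≤ r ^ 2 * ‖K (r * z)‖ + l / m * (D / 3) := by
      have := norm_add_le (((r ^ 2 : ℝ) : ℂ) * K (r * z)) (k z - ((r ^ 2 : ℝ) : ℂ) * K (r * z))
      rw [add_sub_cancel, norm_mul, Complex.norm_real, Real.norm_of_nonneg (by positivity)] at this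
      linarith
    set X := ‖K (r * z)‖
    set Y := l / m * (D / 3) with hY
    have hX : 0 ≤ X := norm_nonneg _
    have hY0 : 0 ≤ Y := by positivity
    have hY2 : Y ^ 2 ≤ l ^ 2 * (8 / 9) * (1 - r ^ 2) ^ 2 * (1 + r ^ 2) := by
      rw [hY, mul_pow, div_pow, div_pow, div_mul_eq_mul_div, div_le_iff₀ (by positivity)]
      nlinarith [mul_le_mul_of_nonneg_left hD (sq_nonneg l)]
    have t2 := pow_le_pow_left₀ (norm_nonneg _) tri 2
    exact t2.trans (two_term (by positivity) (by nlinarith) hY2)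
  rw [avg_add (f := fun z => ‖K (r * z)‖ ^ 2) ((contOn_sph (dcc_mul hK hr1)).norm.pow 2)
    continuousOn_const, avg_const] at hpt
  have n1 : ‖(l : ℂ) * (A * r)‖ ^ 2 = l ^ 2 * (8 / 9) * r ^ 2 := by
    rw [norm_mul, norm_mul, Complex.norm_real, Complex.norm_real, Complex.norm_real, mul_pow,
      mul_pow, Real.norm_eq_abs, Real.norm_eq_abs, Real.norm_eq_abs, sq_abs, sq_abs, sq_abs, A_sq]
    ring
  have n2 : ‖(l : ℂ) * A‖ ^ 2 = l ^ 2 * (8 / 9) := by
    rw [norm_mul, Complex.norm_real, Complex.norm_real, mul_pow,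
      Real.norm_eq_abs, Real.norm_eq_abs, sq_abs, sq_abs, A_sq]
  rw [n1, n2]
  linarith

end Pool.Agent.MP_d3fa2a_an

end

section

/-! The range `q ≥ 2`: increasing convex order of the squared moduli. -/

namespace Pool.Agent.MP_d3fa2a_an

open Complex Metric Real Set

/-- trigonometric polynomial with prescribed moments -/
noncomputable def T (c₁ c₂ z : ℂ) : ℝ := 2 + 2 * (4 / 3 * A * c₁ * z + c₂ / 3 * z ^ 2).re

/-- truncated power -/
noncomputable def phi (s x : ℝ) : ℝ := (max x 0) ^ s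

lemma phi_cont {s : ℝ} (hs : 1 ≤ s) : Continuous (phi s) :=
  (continuous_id.max continuous_const).rpow_const (fun _ => Or.inr (by linarith))

lemma phi_mono {s : ℝ} (hs : 1 ≤ s) {x y : ℝ} (h : x ≤ y) : phi s x ≤ phi s y :=
  Real.rpow_le_rpow (le_max_right _ _) (max_le_max_right _ h) (by linarith)

lemma phi_conv {s : ℝ} (hs : 1 ≤ s) {t : ℝ} (h0 : 0 ≤ t) (h1 : t ≤ 1) (x y : ℝ) :
    phi s (t * x + (1 - t) * y) ≤ t * phi s x + (1 - t) * phi s y := by
  have h2 := (convexOn_rpow hs).2 (x := max x 0) (y := max y 0) (Set.mem_Ici.2 (le_max_right _ _))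
    (Set.mem_Ici.2 (le_max_right _ _)) h0 (sub_nonneg.2 h1) (by ring)
  simp only [smul_eq_mul] at h2
  refine le_trans ?_ h2
  apply Real.rpow_le_rpow (le_max_right _ _) _ (by linarith)
  have a1 := le_max_left x 0
  have a2 := le_max_right x 0
  have a3 := le_max_left y 0
  have a4 := le_max_right y 0
  have a5 := sub_nonneg.2 h1
  apply max_le
  · gcongr
  · positivity

/-- integral functional -/
noncomputable def Phi (s : ℝ) (c₁ c₂ : ℂ) : ℝ := avg (fun z => phi s (T c₁ c₂ z))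

lemma T_cont (c₁ c₂ : ℂ) : Continuous (T c₁ c₂) := by
  unfold T; fun_prop

lemma Phi_conv {s : ℝ} (hs : 1 ≤ s) {t : ℝ} (h0 : 0 ≤ t) (h1 : t ≤ 1) (x₁ x₂ y₁ y₂ : ℂ) :
    Phi s (t * x₁ + (1 - t) * y₁) (t * x₂ + (1 - t) * y₂) ≤
      t * Phi s x₁ x₂ + (1 - t) * Phi s y₁ y₂ := by
  have c : ∀ a b : ℂ, Continuous (fun z => phi s (T a b z)) :=
    fun a b => (phi_cont hs).comp (T_cont a b)
  unfold Phi
  have c1 : Continuous (fun z => t * phi s (T x₁ x₂ z)) := continuous_const.mul (c _ _)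
  have c2 : Continuous (fun z => (1 - t) * phi s (T y₁ y₂ z)) := continuous_const.mul (c _ _)
  have c3 : Continuous (fun z => t * phi s (T x₁ x₂ z) + (1 - t) * phi s (T y₁ y₂ z)) := c1.add c2
  rw [← avg_mul, ← avg_mul, ← avg_add c1.continuousOn c2.continuousOn]
  apply avg_mono (c _ _).continuousOn c3.continuousOn
  intro z _
  have : T (t * x₁ + (1 - t) * y₁) (t * x₂ + (1 - t) * y₂) z =
      t * T x₁ x₂ z + (1 - t) * T y₁ y₂ z := by
    unfold T
    have e : 4 / 3 * A * (t * x₁ + (1 - t) * y₁) * z + (t * x₂ + (1 - t) * y₂) / 3 * z ^ 2 =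
        (t : ℂ) * (4 / 3 * A * x₁ * z + x₂ / 3 * z ^ 2) +
        ((1 - t : ℝ) : ℂ) * (4 / 3 * A * y₁ * z + y₂ / 3 * z ^ 2) := by push_cast; ring
    rw [e, add_re, re_ofReal_mul, re_ofReal_mul]
    ring
  rw [this]
  exact phi_conv hs h0 h1 _ _

lemma Phi_rot (s : ℝ) {u : ℂ} (hu : ‖u‖ = 1) : Phi s u (u ^ 2) = Phi s 1 1 := by
  unfold Phi
  rw [← avg_rot (fun z => phi s (T 1 1 z)) hu]
  congr 1
  ext z
  unfold T
  congr 4
  ring

lemma Phi_chord {s : ℝ} (hs : 1 ≤ s) {m d : ℂ} (hm : ‖m‖ ≤ 1) (hd : ‖d‖ = 1) :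
    Phi s m (m ^ 2 + ((1 - ‖m‖ ^ 2 : ℝ) : ℂ) * d ^ 2) ≤ Phi s 1 1 := by
  rcases eq_or_lt_of_le hm with h1 | h1
  · rw [h1]
    simpa using (Phi_rot s h1).le
  set ρ := 1 - ‖m‖ ^ 2 with hρ
  have hρ0 : 0 < ρ := by nlinarith [norm_nonneg m]
  set β := m.re * d.re + m.im * d.im with hβ
  set γ := √(β ^ 2 + ρ) with hγ
  have hγ2 : γ ^ 2 = β ^ 2 + ρ := Real.sq_sqrt (by positivity)
  have hγ0 : 0 < γ := Real.sqrt_pos.2 (by positivity)
  have hb1 : 0 ≤ γ - β := by nlinarith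
  have hb2 : 0 ≤ γ + β := by nlinarith
  have hd2 : d.re * d.re + d.im * d.im = 1 := by
    have := Complex.sq_norm d
    rw [hd, normSq_apply] at this
    linarith
  have hm2 : m.re * m.re + m.im * m.im = 1 - ρ := by
    rw [hρ, Complex.sq_norm, normSq_apply]; ring
  have n1 : ‖m + ((γ - β : ℝ) : ℂ) * d‖ = 1 := by
    have : ‖m + ((γ - β : ℝ) : ℂ) * d‖ ^ 2 = 1 := by
      rw [Complex.sq_norm, normSq_apply]
      simp only [add_re, add_im, re_ofReal_mul, im_ofReal_mul]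
      linear_combination hm2 + (γ - β) ^ 2 * hd2 + hγ2 - 2 * (γ - β) * hβ
    nlinarith [norm_nonneg (m + ((γ - β : ℝ) : ℂ) * d)]
  have n2 : ‖m - ((γ + β : ℝ) : ℂ) * d‖ = 1 := by
    have : ‖m - ((γ + β : ℝ) : ℂ) * d‖ ^ 2 = 1 := by
      rw [Complex.sq_norm, normSq_apply]
      simp only [sub_re, sub_im, re_ofReal_mul, im_ofReal_mul]
      linear_combination hm2 + (γ + β) ^ 2 * hd2 + hγ2 + 2 * (γ + β) * hβ
    nlinarith [norm_nonneg (m - ((γ + β : ℝ) : ℂ) * d)]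
  have ht0 : 0 ≤ (γ + β) / (2 * γ) := by positivity
  have ht1 : (γ + β) / (2 * γ) ≤ 1 := by rw [div_le_one (by positivity)]; linarith
  have h := Phi_conv hs ht0 ht1 (m + ((γ - β : ℝ) : ℂ) * d) ((m + ((γ - β : ℝ) : ℂ) * d) ^ 2)
    (m - ((γ + β : ℝ) : ℂ) * d) ((m - ((γ + β : ℝ) : ℂ) * d) ^ 2)
  rw [Phi_rot s n1, Phi_rot s n2] at h
  have hγc : (γ : ℂ) ≠ 0 := by exact_mod_cast hγ0.ne'
  have hγ2c : (γ : ℂ) ^ 2 = β ^ 2 + ρ := by exact_mod_cast hγ2
  convert h using 2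
  · push_cast; field_simp; ring
  · push_cast; field_simp
    linear_combination (-2 * γ * d ^ 2) * hγ2c
  · ring

lemma Phi_disc {s : ℝ} (hs : 1 ≤ s) {m y : ℂ} (hm : ‖m‖ ≤ 1) (hy : ‖y‖ ≤ 1 - ‖m‖ ^ 2) :
    Phi s m (m ^ 2 + y) ≤ Phi s 1 1 := by
  set d : ℂ := cexp (((arg y / 2 : ℝ) : ℂ) * I) with hd
  have hd1 : ‖d‖ = 1 := by rw [hd, Complex.norm_exp_ofReal_mul_I]
  have hd2 : y = ‖y‖ * d ^ 2 := by
    rw [hd, ← Complex.exp_nat_mul]
    conv_lhs => rw [← norm_mul_exp_arg_mul_I y]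
    congr 2
    push_cast; ring
  have h1 := Phi_chord hs hm hd1
  have h2 := Phi_chord hs hm (d := I * d) (by simp [hd1])
  set ρ := 1 - ‖m‖ ^ 2 with hρ
  have hρ0 : 0 ≤ ρ := (norm_nonneg _).trans hy
  rcases eq_or_lt_of_le hρ0 with h0 | h0
  · have : y = 0 := by
      rw [← norm_le_zero_iff]; linarith
    rw [← h0] at h1
    simpa [this] using h1
  have ht0 : 0 ≤ (ρ + ‖y‖) / (2 * ρ) := by positivity
  have ht1 : (ρ + ‖y‖) / (2 * ρ) ≤ 1 := by rw [div_le_one (by positivity)]; linarith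
  have h := Phi_conv hs ht0 ht1 m (m ^ 2 + (ρ : ℂ) * d ^ 2) m (m ^ 2 + (ρ : ℂ) * (I * d) ^ 2)
  have hρc : (ρ : ℂ) ≠ 0 := by exact_mod_cast h0.ne'
  have e1 : (((ρ + ‖y‖) / (2 * ρ) : ℝ) : ℂ) * m + (1 - (((ρ + ‖y‖) / (2 * ρ) : ℝ) : ℂ)) * m = m := by
    ring
  have e2 : (((ρ + ‖y‖) / (2 * ρ) : ℝ) : ℂ) * (m ^ 2 + (ρ : ℂ) * d ^ 2) +
      (1 - (((ρ + ‖y‖) / (2 * ρ) : ℝ) : ℂ)) * (m ^ 2 + (ρ : ℂ) * (I * d) ^ 2) = m ^ 2 + y := by
    rw [mul_pow, I_sq]
    conv_rhs => rw [hd2]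
    push_cast; field_simp; ring
  rw [e1, e2] at h
  nlinarith

lemma rpow_eq_phi (y : ℂ) (s : ℝ) : ‖y‖ ^ (2 * s) = phi s (‖y‖ ^ 2) := by
  unfold phi
  rw [max_eq_left (by positivity), Real.rpow_mul (norm_nonneg _)]
  norm_cast

lemma normsq_quad (a : ℝ) (b : ℂ) {z : ℂ} (hz : ‖z‖ = 1) :
    ‖1 + a * z + b * z ^ 2‖ ^ 2 = 1 + a ^ 2 + ‖b‖ ^ 2 + 2 * (a * (1 + b) * z + b * z ^ 2).re := by
  have hz2 : z.re * z.re + z.im * z.im = 1 := by
    have := Complex.sq_norm z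
    rw [hz, normSq_apply] at this
    linarith
  rw [Complex.sq_norm, Complex.sq_norm]
  simp only [normSq_apply, pow_two, add_re, add_im, mul_re, mul_im, one_re, one_im, ofReal_re,
    ofReal_im]
  linear_combination (a * a + (b.re * b.re + b.im * b.im) * (z.re * z.re + z.im * z.im + 1)
    + 2 * a * (b.re * z.re - b.im * z.im)) * hz2

lemma G_normsq {z : ℂ} (hz : ‖z‖ = 1) : ‖1 + A * z + z ^ 2 / 3‖ ^ 2 = T 1 1 z := by
  have := normsq_quad A (1 / 3) hz
  rw [show 1 + A * z + z ^ 2 / 3 = 1 + A * z + (1 / 3 : ℂ) * z ^ 2 by ring, this, A_sq]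
  unfold T
  rw [show (A : ℂ) * (1 + 1 / 3) * z + 1 / 3 * z ^ 2 = 4 / 3 * A * 1 * z + 1 / 3 * z ^ 2 by ring]
  norm_num

theorem large {r : ℝ} {w : ℂ} (h : Cond r w) {s : ℝ} (hs : 1 ≤ s) :
    avg (fun z => ‖1 + A * r * z + (1 - w) / 3 * z ^ 2‖ ^ (2 * s)) ≤
      avg (fun z => ‖1 + A * z + z ^ 2 / 3‖ ^ (2 * s)) := by
  have hm := h.m_le
  have hst := h.star
  set m : ℂ := (r : ℂ) * (1 - w / 4) with hmdef
  set y : ℂ := (1 - w) - m ^ 2 with hy
  set δ : ℝ := 3 / 2 * (1 - 8 / 9 * r ^ 2 - ‖1 - w‖ ^ 2 / 9) with hδ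
  have hρ : 0 ≤ 1 - ‖m‖ ^ 2 := by nlinarith [norm_nonneg m]
  have hδ0 : 0 ≤ δ := by
    have h0 := h.r0
    have h1 := h.r_le_one
    have h2 := h.c1
    have h3 : 0 ≤ 2 * A * r * ‖w‖ := by have := A_pos; positivity
    rw [hδ, norm_one_sub_sq]
    nlinarith
  obtain ⟨y₀, hy0, hy1⟩ : ∃ y₀ : ℂ, ‖y₀‖ ≤ 1 - ‖m‖ ^ 2 ∧ ‖y - y₀‖ ≤ δ := by
    rcases le_total ‖y‖ (1 - ‖m‖ ^ 2) with h1 | h1
    · exact ⟨y, h1, by simpa using hδ0⟩
    · set e : ℂ := cexp (arg y * I) with he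
      have he1 : ‖e‖ = 1 := by rw [he, Complex.norm_exp_ofReal_mul_I]
      refine ⟨((1 - ‖m‖ ^ 2 : ℝ) : ℂ) * e, ?_, ?_⟩
      · rw [norm_mul, he1, mul_one, Complex.norm_real, Real.norm_of_nonneg hρ]
      · have : y - ((1 - ‖m‖ ^ 2 : ℝ) : ℂ) * e = ((‖y‖ - (1 - ‖m‖ ^ 2) : ℝ) : ℂ) * e := by
          conv_lhs => rw [← norm_mul_exp_arg_mul_I y]
          push_cast; ring
        rw [this, norm_mul, he1, mul_one, Complex.norm_real, Real.norm_of_nonneg (by linarith)]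
        linarith
  have h1 := Phi_disc hs hm hy0
  have h2 : avg (fun z => ‖1 + A * z + z ^ 2 / 3‖ ^ (2 * s)) = Phi s 1 1 := by
    apply avg_congr
    intro z hz
    rw [rpow_eq_phi, G_normsq hz]
  rw [h2]
  refine le_trans ?_ h1
  simp only [rpow_eq_phi]
  apply avg_mono
  · apply Continuous.continuousOn
    apply (phi_cont hs).comp
    fun_prop
  · exact ((phi_cont hs).comp (T_cont _ _)).continuousOn
  intro z hz
  apply phi_mono hs
  have := normsq_quad (A * r) ((1 - w) / 3) hz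
  push_cast at this
  rw [this]
  have e : (A : ℂ) * r * (1 + (1 - w) / 3) * z + (1 - w) / 3 * z ^ 2 =
      (4 / 3 * A * m * z + (m ^ 2 + y₀) / 3 * z ^ 2) + (y - y₀) * z ^ 2 / 3 := by
    rw [hy, hmdef]; ring
  have h3 : ((y - y₀) * z ^ 2 / 3).re ≤ δ / 3 := by
    refine (Complex.re_le_norm _).trans ?_
    rw [norm_div, norm_mul, norm_pow, hz]
    simp only [one_pow, mul_one, Complex.norm_ofNat]
    linarith
  rw [e, add_re, mul_pow, A_sq, norm_div, div_pow]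
  unfold T
  simp only [Complex.norm_ofNat]
  linarith

end Pool.Agent.MP_d3fa2a_an

end

section

/-! Assembly of the cubic and quadratic cases. -/

namespace Pool.Agent.MP_d3fa2a_an

open Complex Metric Real Set

lemma integral_eq_avg (f : ℂ → ℝ) :
    ∫ t in (0 : ℝ)..2 * π, f (cexp (t * I)) = 2 * π * avg f := by
  unfold avg
  rw [circleAverage_def, smul_eq_mul, ← mul_assoc, mul_inv_cancel₀ (by positivity), one_mul]
  simp [circleMap]

lemma both {r : ℝ} {w : ℂ} (h : Cond r w) {q : ℝ} (hq : 0 < q) :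
    avg (fun z => ‖1 + A * r * z + (1 - w) / 3 * z ^ 2‖ ^ q) ≤
      avg (fun z => ‖1 + A * z + z ^ 2 / 3‖ ^ q) := by
  obtain ⟨l, rfl⟩ : ∃ l, q = 2 * l := ⟨q / 2, by ring⟩
  rcases le_total l 1 with h1 | h1
  · exact small h (by linarith) h1
  · exact large h h1

theorem cubic_le {a b : ℂ} (h : InjOn (fun z : ℂ => z + a * z ^ 2 + b * z ^ 3) (ball 0 1))
    {q : ℝ} (hq : 0 < q) :
    avg (fun z => ‖z + a * z ^ 2 + b * z ^ 3‖ ^ q) ≤
      avg (fun z => ‖1 + A * z + z ^ 2 / 3‖ ^ q) := by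
  obtain ⟨r, w, η, hη, hc, ha, hb⟩ := normalise h
  refine le_trans (le_of_eq ?_) (both hc hq)
  rw [← avg_rot (fun z => ‖1 + A * r * z + (1 - w) / 3 * z ^ 2‖ ^ q) hη]
  apply avg_congr
  intro z hz
  have : z + a * z ^ 2 + b * z ^ 3 = z * (1 + A * r * (η * z) + (1 - w) / 3 * (η * z) ^ 2) := by
    rw [ha, hb]; ring
  rw [this, norm_mul, hz, one_mul]

lemma S_avg (q : ℝ) : avg (fun z => ‖z + (A : ℂ) * z ^ 2 + (1 / 3 : ℂ) * z ^ 3‖ ^ q) =
    avg (fun z => ‖1 + A * z + z ^ 2 / 3‖ ^ q) := by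
  apply avg_congr
  intro z hz
  have : z + (A : ℂ) * z ^ 2 + (1 / 3 : ℂ) * z ^ 3 = z * (1 + A * z + z ^ 2 / 3) := by ring
  rw [this, norm_mul, hz, one_mul]

lemma S_value (q : ℝ) : 2 * π * avg (fun z => ‖1 + A * z + z ^ 2 / 3‖ ^ q) =
    ∫ t in (0 : ℝ)..2 * π, (2 + 16 * √2 / 9 * Real.cos t + 2 / 3 * Real.cos (2 * t)) ^ (q / 2) := by
  rw [← integral_eq_avg]
  congr 1
  ext t
  have hz : ‖cexp (t * I)‖ = 1 := Complex.norm_exp_ofReal_mul_I t
  have h1 := G_normsq hz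
  have h2 : T 1 1 (cexp (t * I)) = 2 + 16 * √2 / 9 * Real.cos t + 2 / 3 * Real.cos (2 * t) := by
    unfold T A
    have e : cexp (t * I) ^ 2 = cexp (((2 * t : ℝ) : ℂ) * I) := by
      rw [← Complex.exp_nat_mul]; congr 1; push_cast; ring
    have e2 : 4 / 3 * ((2 * √2 / 3 : ℝ) : ℂ) * 1 * cexp (t * I) + 1 / 3 * cexp (t * I) ^ 2 =
        ((8 * √2 / 9 : ℝ) : ℂ) * cexp (t * I) + ((1 / 3 : ℝ) : ℂ) * cexp (((2 * t : ℝ) : ℂ) * I) := by
      rw [e]; push_cast; ring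
    rw [e2, add_re, re_ofReal_mul, re_ofReal_mul, exp_ofReal_mul_I_re, exp_ofReal_mul_I_re]
    ring
  rw [← h2, ← h1, ← Real.rpow_natCast, ← Real.rpow_mul (norm_nonneg _)]
  congr 1
  push_cast
  ring

theorem quad_le {a : ℂ} (h : InjOn (fun z : ℂ => z + a * z ^ 2) (ball 0 1))
    {q : ℝ} : avg (fun z => ‖z + a * z ^ 2‖ ^ q) ≤ avg (fun z => ‖1 + z / 2‖ ^ q) := by
  obtain ⟨l, rfl⟩ : ∃ l, q = 2 * l := ⟨q / 2, by ring⟩
  have ha := quad_coeff h
  obtain ⟨k, hk, ek⟩ := pow_split (f := fun z => 1 + z / 2) (by fun_prop) (by simp) (α := 1 / 2)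
    (by simpa using ((hasDerivAt_id (0 : ℂ)).div_const 2).const_add 1)
    (fun z hz => by
      have := neg_le_re hz
      simp only [add_re, one_re, div_ofNat_re]
      linarith) l
  have hd : DiffContOnCl ℂ (fun z : ℂ => (1 + z / 2) ^ (l : ℂ)) (ball 0 1) := by
    simp only [ek]
    have e1 : DiffContOnCl ℂ (fun z : ℂ => z) (ball 0 1) := differentiable_id.diffContOnCl
    exact ⟨((e1.1.const_mul _).const_add 1).add ((e1.1.pow 2).mul hk.1),
      (continuousOn_const.add (continuousOn_const.mul e1.2)).add ((e1.2.pow 2).mul hk.2)⟩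
  have := avg_dilate hd (c := 2 * a) (by rw [norm_mul]; simp only [Complex.norm_ofNat]; linarith)
  simp only [← norm_rpow_eq] at this
  refine le_trans (le_of_eq ?_) this
  apply avg_congr
  intro z hz
  have : z + a * z ^ 2 = z * (1 + 2 * a * z / 2) := by ring
  rw [this, norm_mul, hz, one_mul]

lemma Q_avg (q : ℝ) : avg (fun z => ‖z + (1 / 2 : ℂ) * z ^ 2‖ ^ q) =
    avg (fun z => ‖1 + z / 2‖ ^ q) := by
  apply avg_congr
  intro z hz
  have : z + (1 / 2 : ℂ) * z ^ 2 = z * (1 + z / 2) := by ring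
  rw [this, norm_mul, hz, one_mul]

lemma Q_value (q : ℝ) : 2 * π * avg (fun z => ‖1 + z / 2‖ ^ q) =
    ∫ t in (0 : ℝ)..2 * π, (5 / 4 + Real.cos t) ^ (q / 2) := by
  rw [← integral_eq_avg]
  congr 1
  ext t
  have h1 : ‖1 + cexp (t * I) / 2‖ ^ 2 = 5 / 4 + Real.cos t := by
    rw [Complex.sq_norm, normSq_apply]
    simp only [add_re, add_im, one_re, one_im, div_ofNat_re, div_ofNat_im, exp_ofReal_mul_I_re,
      exp_ofReal_mul_I_im]
    nlinarith [Real.sin_sq_add_cos_sq t]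
  rw [← h1, ← Real.rpow_natCast, ← Real.rpow_mul (norm_nonneg _)]
  congr 1
  push_cast
  ring

end Pool.Agent.MP_d3fa2a_an

end
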